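import Pool.Agent.R911.Sq.Gen
import Pool.Agent.R484.SGe

/-!
# One Künneth component in one theory implies the sign conjecture in another theory

Let `X` and `Y` be varieties of dimensions `n ≤ m` over any field, `W'` a Weil cohomology theory with a
divisor on `Y` whose `m`-th power is not zero. If a single Künneth component of the diagonal of
`X × Y` for `W'`, of any degree `j` with `n ≤ j ≤ n + 2 m`, is algebraic, then the sign conjecture
holds for `X` and every Weil cohomology theory `W` for which the sum of the Betti numbers of `X` is not
larger than for `W'`, and the two sums agree. For example `W` is crystalline cohomology and `W'` is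
`ℓ`-adic cohomology for any one prime `ℓ`, or `W' = W`.
-/

open CategoryTheory AlgebraicGeometry

universe u v

namespace Pool.Agent.Results.MP_fd35e1_ag.OneComponentInAnyTheory

open Pool.Agent.H914 VarClass Obj WeilCohomology Pool.Agent.H447 Pool.Agent.R911.Kn
  Pool.Agent.R911.Sq Pool.Agent.H578R3.Sgn Pool.Agent.R484.SG

/-- **One algebraic Künneth component of `X × Y` for one theory `W'` implies the sign conjecture for
`X` and any other theory `W` (with not larger Betti numbers).** -/
theorem result {k : Type u} [Field k] {𝒱 : VarClass k} {ops : CycleOps 𝒱}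
    (W W' : WeilCohomology.{u, v} ops) (X Y : 𝒱.Obj) (D : Y.Cycles) (hD : Y.IsCyc 1 D)
    (hne : W'.cl Y D ^ Y.dim ≠ 0) (hXY : X.dim ≤ Y.dim) (j : ℕ) (h1 : X.dim ≤ j)
    (h2 : j ≤ X.dim + 2 * Y.dim) (h : ComponentAlgebraic W' (X.prod Y) j)
    (hb : totalBetti W X ≤ totalBetti W' X) :
    SignStd W X ∧ totalBetti W X = totalBetti W' X :=
  sign_comparison X W W' (sign_of_component hD hne hXY h1 h2 h) hb

end Pool.Agent.Results.MP_fd35e1_ag.OneComponentInAnyTheory
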