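import Pool.Agent.R484.SGe

/-!
# The parity index of a smooth projective variety

For a smooth projective variety `X` over any field, a *numerical involution* of `X` is a cycle `w` of
codimension `dim X` on `X × X` with rational coefficients such that `w ∘ w` is numerically equivalent
to the diagonal `Δ`.

1. For every numerical involution `w` and every Weil cohomology theory, the number `w · Δ` is an
   integer, is bounded in absolute value by the sum of all Betti numbers of `X`, and is congruent to
   it modulo two.
2. The *parity index* `ρ(X)` is the largest of the numbers `w · Δ`.  It exists, and there is one cycle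
   `P` such that for every Weil cohomology theory `W` the following are equivalent: `C⁺(X)` for `W`;
   `P` acts as `(-1)^j` on `H^j(X)` for all `j`; the sum of the Betti numbers is `ρ(X)`; the sum of the
   Betti numbers is less than `ρ(X) + 2`.
3. `ρ(X) ρ(Y) ≤ ρ(X × Y)`.
4. If `C⁺(X)` holds for one theory `W'` and the sum of the Betti numbers of `X` in another theory `W`
   is at most the one in `W'`, then `C⁺(X)` holds for `W`, and the two sums agree.
-/

open CategoryTheory AlgebraicGeometry

universe u v

namespace Pool.Agent.Results.MP_fd35e1_ag.ParityIndex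

open Pool.Agent.H914 VarClass Obj WeilCohomology Pool.Agent.H447 Pool.Agent.H578R3.Sgn
  Pool.Agent.R484.SG

variable {k : Type u} [Field k] {𝒱 : VarClass k} {ops : CycleOps 𝒱}

/-- **The parity index.** -/
theorem result (W₀ : WeilCohomology.{u, v} ops) :
    (∀ (W : WeilCohomology.{u, v} ops) (X : 𝒱.Obj) (w : (X.prod X).Cycles),
      NumInvolution ops X w → ∃ m : ℤ, diagNumber ops X w = m ∧ |m| ≤ totalBetti W X ∧
        (2 : ℤ) ∣ (totalBetti W X - m)) ∧
    (∃ ρ : 𝒱.Obj → ℕ,
      (∀ X, IsGreatest {d : ℚ | ∃ w, NumInvolution ops X w ∧ diagNumber ops X w = d} (ρ X)) ∧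
      (∀ X, ∃ P, (X.prod X).IsCyc X.dim P ∧ ∀ W : WeilCohomology.{u, v} ops,
        ρ X ≤ totalBetti W X ∧ Even (totalBetti W X - ρ X) ∧
        List.TFAE [SignStd W X, InducesParity W X P, totalBetti W X = ρ X,
          totalBetti W X < ρ X + 2]) ∧
      (∀ X Y, ρ X * ρ Y ≤ ρ (X.prod Y))) ∧
    (∀ (X : 𝒱.Obj) (W W' : WeilCohomology.{u, v} ops), SignStd W' X →
      totalBetti W X ≤ totalBetti W' X → SignStd W X ∧ totalBetti W X = totalBetti W' X) :=
  ⟨fun W _ _ hw => involution_bound W hw, exists_index W₀, sign_comparison⟩

end Pool.Agent.Results.MP_fd35e1_ag.ParityIndex
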