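import Pool.Agent.R911.Zd.Idx

/-!
# The zeta index of a smooth projective variety

Let `X` be a smooth projective variety of dimension `n` over any field `k`. For a cycle `z` of
codimension `n` on `X × X` with rational coefficients (a correspondence) let `z ^ m` be its iterates
and consider the zeta function `exp (∑ (z ^ m · Δ) t ^ m / m)`, where `z ^ m · Δ` is the intersection
number with the diagonal. If there is a Weil cohomology theory, it is a rational function with
rational coefficients. Its total degree is the number of its zeros and poles with multiplicities.

There is one correspondence `z₀` of `X` whose zeta function has the largest total degree among all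
correspondences of `X`, and for every Weil cohomology theory `W` (crystalline, `ℓ`-adic, ...) this
degree is at most the sum `b_W(X)` of the Betti numbers. The conjecture `C⁺(X)` holds for `W` if and
only if the degree for `z₀` is `b_W(X)`, and if and only if it is at least `b_W(X) - 1`.
-/

set_option autoImplicit false

open CategoryTheory AlgebraicGeometry

universe u v

namespace Pool.Agent.Results.MP_fd35e1_ag.ZetaIndex

open Pool.Agent.H914 VarClass Obj WeilCohomology Pool.Agent.H447 Pool.Agent.R911.Zd

variable {k : Type u} [Field k] {𝒱 : VarClass k} {ops : CycleOps 𝒱}

/-- **One correspondence decides the conjecture `C⁺` for all Weil cohomology theories.** -/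
theorem result (W₀ : WeilCohomology.{u, v} ops) (X : 𝒱.Obj) :
    ∃ z₀, (X.prod X).IsCyc X.dim z₀ ∧ ∀ W : WeilCohomology.{u, v} ops,
      (∀ z, (X.prod X).IsCyc X.dim z → (∃ P Q : Polynomial ℚ, IsZeta (fixedNumber ops X z) P Q) ∧
        cycleZetaDegree ops X z ≤ cycleZetaDegree ops X z₀ ∧
        cycleZetaDegree ops X z ≤ sumBetti W X) ∧
      List.TFAE [SignStd W X, cycleZetaDegree ops X z₀ = sumBetti W X,
        sumBetti W X ≤ cycleZetaDegree ops X z₀ + 1] :=
  zeta_index W₀ X

end Pool.Agent.Results.MP_fd35e1_ag.ZetaIndex
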